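import Pool.Agent.Q157.DD.Stm

set_option autoImplicit false

/-!
# Project DD, job DD-low: the lower bound
-/

namespace Pool.Agent.Q123.DD

open Equiv Pool.Agent.Q157.DD
open scoped commutatorElement

/-- The permutation `(u, i, j) ↦ (π u, σ u i, τ u i j)`. -/
def gg (π : Perm Bool) (σ : Bool → Perm (Fin 4)) (τ : Bool → Fin 4 → Perm (Fin 4)) : Perm P32 where
  toFun x := (π x.1, σ x.1 x.2.1, τ x.1 x.2.1 x.2.2)
  invFun y := (π.symm y.1, (σ (π.symm y.1)).symm y.2.1,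
    (τ (π.symm y.1) ((σ (π.symm y.1)).symm y.2.1)).symm y.2.2)
  left_inv x := by simp
  right_inv x := by simp

theorem gg_mem (π : Perm Bool) (σ : Bool → Perm (Fin 4)) (τ : Bool → Fin 4 → Perm (Fin 4)) :
    gg π σ τ ∈ G32 := by
  refine ⟨fun x y => ?_, fun x y => ?_⟩
  · show x.1 = y.1 ↔ π x.1 = π y.1
    exact (π.injective.eq_iff).symm
  · show (x.1 = y.1 ∧ x.2.1 = y.2.1) ↔ (π x.1 = π y.1 ∧ σ x.1 x.2.1 = σ y.1 y.2.1)
    constructor
    · rintro ⟨h1, h2⟩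
      rw [h1, h2]
      exact ⟨rfl, rfl⟩
    · rintro ⟨h1, h2⟩
      have h3 := π.injective h1
      rw [h3] at h2
      exact ⟨h3, (σ y.1).injective h2⟩

/-- The stabiliser of `c` has derived length at least 3, witnessed by four elements. -/
def Wit (c : P32 → Bool) : Prop :=
  ∃ a b d e : Perm P32, a ∈ cst G32 c ∧ b ∈ cst G32 c ∧ d ∈ cst G32 c ∧ e ∈ cst G32 c ∧
    ⁅⁅a, b⁆, ⁅d, e⁆⁆ ≠ 1

theorem wit_low {c : P32 → Bool} (h : Wit c) : ds (cst G32 c) 2 ≠ ⊥ := by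
  obtain ⟨a, b, d, e, ha, hb, hd, he, hne⟩ := h
  intro h0
  apply hne
  rw [← Subgroup.mem_bot, ← h0]
  exact Subgroup.commutator_mem_commutator (Subgroup.commutator_mem_commutator ha hb)
    (Subgroup.commutator_mem_commutator hd he)

theorem conj_mem {c : P32 → Bool} {h a : Perm P32} (hh : h ∈ G32) (ha : a ∈ cst G32 (c ∘ h)) :
    h * a * h⁻¹ ∈ cst G32 c := by
  obtain ⟨h1, h2⟩ := ha
  refine ⟨G32.mul_mem (G32.mul_mem hh h1) (G32.inv_mem hh), fun x => ?_⟩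
  have h3 := h2 (h⁻¹ x)
  have h4 : h (h⁻¹ x) = x := h.apply_symm_apply x
  simp only [Function.comp_apply, h4] at h3
  exact h3

theorem wit_conj {c : P32 → Bool} {h : Perm P32} (hh : h ∈ G32) (hw : Wit (c ∘ h)) : Wit c := by
  obtain ⟨a, b, d, e, ha, hb, hd, he, hne⟩ := hw
  refine ⟨h * a * h⁻¹, h * b * h⁻¹, h * d * h⁻¹, h * e * h⁻¹, conj_mem hh ha, conj_mem hh hb,
    conj_mem hh hd, conj_mem hh he, ?_⟩
  intro h0
  apply hne
  have e1 : ⁅⁅h * a * h⁻¹, h * b * h⁻¹⁆, ⁅h * d * h⁻¹, h * e * h⁻¹⁆⁆ = h * ⁅⁅a, b⁆, ⁅d, e⁆⁆ * h⁻¹ := by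
    simp only [commutatorElement_def]
    group
  rw [e1] at h0
  rw [mul_inv_eq_one] at h0
  exact mul_eq_left.1 h0

theorem bool_mono (f : Fin 4 → Bool) (hf : Monotone f) : ∃ k : Fin 5, ∀ j : Fin 4, f j = decide (k.val ≤ j.val) := by
  have h01 := hf (show (0 : Fin 4) ≤ 1 by decide)
  have h12 := hf (show (1 : Fin 4) ≤ 2 by decide)
  have h23 := hf (show (2 : Fin 4) ≤ 3 by decide)
  have key : ∀ a b c d : Bool, (a = true → b = true) → (b = true → c = true) → (c = true → d = true) →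
      ∃ k : Fin 5, a = decide (k.val ≤ 0) ∧ b = decide (k.val ≤ 1) ∧ c = decide (k.val ≤ 2) ∧
        d = decide (k.val ≤ 3) := by decide
  obtain ⟨k, h0, h1, h2, h3⟩ := key _ _ _ _ (Bool.le_iff_imp.1 h01) (Bool.le_iff_imp.1 h12)
    (Bool.le_iff_imp.1 h23)
  refine ⟨k, fun j => ?_⟩
  fin_cases j
  · exact h0
  · exact h1
  · exact h2
  · exact h3

/-- The canonical colouring. -/
def can (k : Bool → Fin 4 → Fin 5) : P32 → Bool := fun x => decide ((k x.1 x.2.1).val ≤ x.2.2.val)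

theorem to_can (H : ∀ k : Bool → Fin 4 → Fin 5, (∀ u, Monotone (k u)) → Wit (can k)) (c : P32 → Bool) :
    Wit c := by
  have h1 : ∀ u i, ∃ k : Fin 5, ∀ j : Fin 4, c (u, i, Tuple.sort (fun j => c (u, i, j)) j) = decide (k.val ≤ j.val) :=
    fun u i => bool_mono _ (Tuple.monotone_sort (fun j => c (u, i, j)))
  choose k hk using h1
  refine wit_conj (gg_mem 1 (fun _ => 1) (fun u i => Tuple.sort (fun j => c (u, i, j)))) ?_
  refine wit_conj (gg_mem 1 (fun u => Tuple.sort (k u)) (fun _ _ => 1)) ?_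
  have e : ((c ∘ (gg 1 (fun _ => 1) (fun u i => Tuple.sort (fun j => c (u, i, j))))) ∘
      (gg 1 (fun u => Tuple.sort (k u)) (fun _ _ => 1))) = can (fun u => k u ∘ Tuple.sort (k u)) := by
    funext x
    exact hk x.1 (Tuple.sort (k x.1) x.2.1) x.2.2
  rw [e]
  exact H _ fun u => Tuple.monotone_sort (k u)

/-- `τ` acts on the block `(u, i)`. -/
def blk (u : Bool) (i : Fin 4) (τ : Perm (Fin 4)) : Perm P32 :=
  gg 1 (fun _ => 1) (fun u' i' => if u' = u ∧ i' = i then τ else 1)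

/-- `σ` acts on the four blocks of the half `u`. -/
def row (u : Bool) (σ : Perm (Fin 4)) : Perm P32 :=
  gg 1 (fun u' => if u' = u then σ else 1) (fun _ _ => 1)

/-- The exchange of the two halves. -/
def flp : Perm P32 := gg Equiv.boolNot (fun _ => 1) (fun _ _ => 1)

theorem blk_cst {k : Bool → Fin 4 → Fin 5} {u : Bool} {i : Fin 4} {τ : Perm (Fin 4)}
    (h : ∀ j : Fin 4, (k u i).val ≤ (τ j).val ↔ (k u i).val ≤ j.val) : blk u i τ ∈ cst G32 (can k) := by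
  refine ⟨gg_mem _ _ _, ?_⟩
  rintro ⟨u', i', j⟩
  show decide ((k u' i').val ≤ ((if u' = u ∧ i' = i then τ else 1 : Perm (Fin 4)) j).val) =
    decide ((k u' i').val ≤ j.val)
  split_ifs with h1
  · rw [h1.1, h1.2]
    exact decide_eq_decide.2 (h j)
  · rfl

theorem row_cst {k : Bool → Fin 4 → Fin 5} {u : Bool} {σ : Perm (Fin 4)}
    (h : ∀ i : Fin 4, k u (σ i) = k u i) : row u σ ∈ cst G32 (can k) := by
  refine ⟨gg_mem _ _ _, ?_⟩
  rintro ⟨u', i', j⟩
  show decide ((k u' ((if u' = u then σ else 1 : Perm (Fin 4)) i')).val ≤ j.val) =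
    decide ((k u' i').val ≤ j.val)
  split_ifs with h1
  · rw [h1, h]
  · rfl

theorem flp_cst {k : Bool → Fin 4 → Fin 5} (h : ∀ u i, k (!u) i = k u i) : flp ∈ cst G32 (can k) := by
  refine ⟨gg_mem _ _ _, ?_⟩
  rintro ⟨u', i', j⟩
  show decide ((k (!u') i').val ≤ j.val) = decide ((k u' i').val ≤ j.val)
  rw [h]

theorem ne_one_of {g : Perm P32} {x : P32} (h : g x ≠ x) : g ≠ 1 := by
  rintro rfl
  exact h rfl

theorem wit_one {k : Bool → Fin 4 → Fin 5} {u : Bool} {i : Fin 4} (h : k u i = 0 ∨ k u i = 4) :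
    Wit (can k) := by
  have h1 : ∀ τ : Perm (Fin 4), blk u i τ ∈ cst G32 (can k) := by
    intro τ
    refine blk_cst fun j => ?_
    rcases h with h | h
    · rw [h]
      exact iff_of_true (Nat.zero_le _) (Nat.zero_le _)
    · rw [h]
      exact iff_of_false (not_le.2 (τ j).isLt) (not_le.2 j.isLt)
  refine ⟨blk u i (swap 0 1), blk u i (swap 1 2), blk u i (swap 1 2), blk u i (swap 2 3), h1 _, h1 _, h1 _,
    h1 _, ?_⟩
  have key : ∀ u i, ⁅⁅blk u i (swap 0 1), blk u i (swap 1 2)⁆, ⁅blk u i (swap 1 2), blk u i (swap 2 3)⁆⁆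
      (u, i, 0) ≠ (u, i, 0) := by decide
  exact ne_one_of (key u i)

theorem wit_two {k : Bool → Fin 4 → Fin 5} {u : Bool} (h : k u 0 = 1 ∧ k u 1 = 1) :
    Wit (can k) := by
  obtain ⟨h0, h1⟩ := h
  refine ⟨blk u 0 (swap 1 2), row u (swap 0 1), blk u 0 (swap 2 3), row u (swap 0 1),
    blk_cst (by rw [h0]; decide), row_cst ?_, blk_cst (by rw [h0]; decide), row_cst ?_, ?_⟩
  · intro i; fin_cases i <;> simp [swap_apply_def, h0, h1]
  · intro i; fin_cases i <;> simp [swap_apply_def, h0, h1]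
  · have key : ∀ u, ⁅⁅blk u 0 (swap 1 2), row u (swap 0 1)⁆, ⁅blk u 0 (swap 2 3), row u (swap 0 1)⁆⁆
      (u, 0, 1) ≠ (u, 0, 1) := by decide
    exact ne_one_of (key u)

theorem wit_two' {k : Bool → Fin 4 → Fin 5} {u : Bool} (h : k u 2 = 3 ∧ k u 3 = 3) :
    Wit (can k) := by
  obtain ⟨h0, h1⟩ := h
  refine ⟨blk u 2 (swap 0 1), row u (swap 2 3), blk u 2 (swap 1 2), row u (swap 2 3),
    blk_cst (by rw [h0]; decide), row_cst ?_, blk_cst (by rw [h0]; decide), row_cst ?_, ?_⟩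
  · intro i; fin_cases i <;> simp [swap_apply_def, h0, h1]
  · intro i; fin_cases i <;> simp [swap_apply_def, h0, h1]
  · have key : ∀ u, ⁅⁅blk u 2 (swap 0 1), row u (swap 2 3)⁆, ⁅blk u 2 (swap 1 2), row u (swap 2 3)⁆⁆
      (u, 2, 0) ≠ (u, 2, 0) := by decide
    exact ne_one_of (key u)

theorem wit_three {k : Bool → Fin 4 → Fin 5} {u : Bool} (h : k u 0 = 2 ∧ k u 1 = 2 ∧ k u 2 = 2) :
    Wit (can k) := by
  obtain ⟨h0, h1, h2⟩ := h
  refine ⟨row u (swap 0 1), row u (swap 1 2), blk u 0 (swap 0 1), row u (swap 0 1),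
    row_cst ?_, row_cst ?_, blk_cst (by rw [h0]; decide), row_cst ?_, ?_⟩
  · intro i; fin_cases i <;> simp [swap_apply_def, h0, h1, h2]
  · intro i; fin_cases i <;> simp [swap_apply_def, h0, h1, h2]
  · intro i; fin_cases i <;> simp [swap_apply_def, h0, h1, h2]
  · have key : ∀ u, ∃ i, ⁅⁅row u (swap 0 1), row u (swap 1 2)⁆, ⁅blk u 0 (swap 0 1), row u (swap 0 1)⁆⁆
      (u, i, 0) ≠ (u, i, 0) := by decide
    obtain ⟨i, hi⟩ := key u
    exact ne_one_of hi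

theorem wit_three' {k : Bool → Fin 4 → Fin 5} {u : Bool} (h : k u 1 = 2 ∧ k u 2 = 2 ∧ k u 3 = 2) :
    Wit (can k) := by
  obtain ⟨h0, h1, h2⟩ := h
  refine ⟨row u (swap 1 2), row u (swap 2 3), blk u 1 (swap 0 1), row u (swap 1 2),
    row_cst ?_, row_cst ?_, blk_cst (by rw [h0]; decide), row_cst ?_, ?_⟩
  · intro i; fin_cases i <;> simp [swap_apply_def, h0, h1, h2]
  · intro i; fin_cases i <;> simp [swap_apply_def, h0, h1, h2]
  · intro i; fin_cases i <;> simp [swap_apply_def, h0, h1, h2]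
  · have key : ∀ u, ∃ i, ⁅⁅row u (swap 1 2), row u (swap 2 3)⁆, ⁅blk u 1 (swap 0 1), row u (swap 1 2)⁆⁆
      (u, i, 0) ≠ (u, i, 0) := by decide
    obtain ⟨i, hi⟩ := key u
    exact ne_one_of hi

theorem wit_four {k : Bool → Fin 4 → Fin 5}
    (h : ∀ u, k u 0 = 1 ∧ k u 1 = 2 ∧ k u 2 = 2 ∧ k u 3 = 3) : Wit (can k) := by
  refine ⟨row false (swap 1 2), flp, blk false 1 (swap 0 1), flp,
    row_cst ?_, flp_cst ?_, blk_cst (by rw [(h false).2.1]; decide), flp_cst ?_, ?_⟩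
  · intro i; fin_cases i <;> simp [swap_apply_def, (h false).2.1, (h false).2.2.1]
  · intro u i
    obtain ⟨a1, a2, a3, a4⟩ := h u
    obtain ⟨b1, b2, b3, b4⟩ := h (!u)
    fin_cases i
    · exact b1.trans a1.symm
    · exact b2.trans a2.symm
    · exact b3.trans a3.symm
    · exact b4.trans a4.symm
  · intro u i
    obtain ⟨a1, a2, a3, a4⟩ := h u
    obtain ⟨b1, b2, b3, b4⟩ := h (!u)
    fin_cases i
    · exact b1.trans a1.symm
    · exact b2.trans a2.symm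
    · exact b3.trans a3.symm
    · exact b4.trans a4.symm
  · have key : ∃ x : P32, ⁅⁅row false (swap 1 2), flp⁆, ⁅blk false 1 (swap 0 1), flp⁆⁆ x ≠ x := by decide
    obtain ⟨x, hx⟩ := key
    exact ne_one_of hx

theorem cases4 : ∀ a b c d : Fin 5, a ≤ b → b ≤ c → c ≤ d →
    (a = 0 ∨ d = 4) ∨ (a = 1 ∧ b = 1) ∨ (c = 3 ∧ d = 3) ∨ (a = 2 ∧ b = 2 ∧ c = 2) ∨
      (b = 2 ∧ c = 2 ∧ d = 2) ∨ (a = 1 ∧ b = 2 ∧ c = 2 ∧ d = 3) := by decide

/-- **DD-low.** -/
theorem low : S_low := by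
  intro c
  refine wit_low (to_can (fun k hk => ?_) c)
  by_cases h4 : ∀ u, k u 0 = 1 ∧ k u 1 = 2 ∧ k u 2 = 2 ∧ k u 3 = 3
  · exact wit_four h4
  · push Not at h4
    obtain ⟨u, hu⟩ := h4
    rcases cases4 (k u 0) (k u 1) (k u 2) (k u 3) (hk u (by decide)) (hk u (by decide)) (hk u (by decide)) with
      (h | h) | h | h | h | h | ⟨a1, a2, a3, a4⟩
    · exact wit_one (Or.inl h)
    · exact wit_one (Or.inr h)
    · exact wit_two h
    · exact wit_two' h
    · exact wit_three h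
    · exact wit_three' h
    · exact absurd a4 (hu a1 a2 a3)

end Pool.Agent.Q123.DD
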