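import Pool.Agent.Q157.DD.Ds2
import Pool.Agent.Q25.SC.B3

set_option autoImplicit false

/-!
# Project DD, job DD-n9: the plane over `ZMod 3`
-/

namespace Pool.Agent.Q123.DD

open Equiv Pool.Agent.Q157.DD Pool.Agent.Q157.SC Pool.Agent.Q25.SC
open scoped commutatorElement

/-- The complement of the frame. -/
def ce : P3 → Bool := fun x => !cc x

/-- Two points. -/
def cg : P3 → Bool := fun x => decide (x = (0, 0)) || decide (x = (1, 0))

theorem sp_ce : ∀ x₀ v : P3, ∃ y₁ y₂ y₃ : P3, (ce y₁ = true ∧ y₁ ≠ x₀) ∧ (ce y₂ = true ∧ y₂ ≠ x₀) ∧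
    (ce y₃ = true ∧ y₃ ≠ x₀) ∧ v = y₁ - y₂ + y₃ := by
  decide +kernel

theorem tr_ce : tr ce = 6 := by
  unfold tr; rw [Nat.card_eq_fintype_card]; decide +kernel

theorem tr_cg : tr cg = 2 := by
  unfold tr; rw [Nat.card_eq_fintype_card]; decide +kernel

theorem span_of (c : P3 → Bool) (h : Spn c) (U : Set P3) (hU : Closed U)
    (hy : ∀ x, c x = true → x ∈ U) (v : P3) : v ∈ U := by
  have h1 := h v (U ∪ {x | x = v ∧ v ∈ U})
  by_contra hv
  have h2 : U ∪ {x | x = v ∧ v ∈ U} = U := by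
    ext x
    simp [hv]
  rw [h2] at h1
  exact hv (h1 hU (fun y hy1 _ => hy y hy1) v)

theorem ast_cls (c : P3 → Bool) : ∀ g ∈ ast c, ∀ x, c x = true → c (g x) = true := by
  intro g hg x hx
  rw [hg.2, hx]

theorem ds_ca : ds (ast ca) 3 = ⊥ := by
  refine ds_span (ast ca) (fun x => ca x = true) (fun f hf => hf.1) (ast_cls ca) 3 ?_
    (span_of ca (spn_of ca sp_ca))
  refine perm_small.1 ?_
  have := tr_ca
  unfold tr at this
  exact this.le

theorem ds_cc : ds (ast cc) 3 = ⊥ := by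
  refine ds_span (ast cc) (fun x => cc x = true) (fun f hf => hf.1) (ast_cls cc) 3 ?_ ?_
  · refine perm_small.1 ?_
    have := tr_cc
    unfold tr at this
    rw [this]
    norm_num
  · intro U hU hy v
    obtain ⟨y₁, y₂, y₃, k1, k2, k3, rfl⟩ := sp_cc v
    exact hU _ (hy _ k1) _ (hy _ k2) _ (hy _ k3)

theorem dA : ∀ d : P3, d.2 ≠ 0 → ∀ x : P3, x.2 ≠ 0 → (mm (0, 0) (1, 0) d x).2 ≠ 0 := by
  decide +kernel

theorem dB : ∀ d : P3, d.2 ≠ 0 → ∃ e : Bool, ∀ x : P3, x.2 ≠ 0 →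
    decide ((mm (0, 0) (1, 0) d x).2 = 1) = xor e (decide (x.2 = 1)) := by
  decide +kernel

theorem dC : ∀ s t : P3, s.2 = 1 → t.2 = 1 → ∀ x : P3,
    mm (0, 0) (1, 0) s (mm (0, 0) (1, 0) t x) = mm (0, 0) (1, 0) t (mm (0, 0) (1, 0) s x) := by
  decide +kernel

theorem dD : ∀ d : P3, d.2 = 0 → mm (0, 0) (1, 0) d (0, 1) = mm (0, 0) (1, 0) d (d.1, 0) := by
  decide +kernel

theorem ds_cg : ds (ast cg) 3 = ⊥ := by
  have h1 : ∀ g ∈ ds (ast cg) 1, ∀ x, cg x = true → g x = x := by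
    intro g hg x hx
    refine ds_fix (ast cg) (fun x => cg x = true) (ast_cls cg) 1 ?_ g hg x hx
    refine perm_small.2.2 ?_
    have := tr_cg
    unfold tr at this
    exact this.le
  have h2 : ∀ g ∈ ds (ast cg) 1, ∀ x, g x = mm (0, 0) (1, 0) (g (0, 1)) x := by
    intro g hg x
    have h3 := aff_mm g (ds_le (ast cg) 1 hg).1 x
    have h4 : g 0 = (0, 0) := h1 g hg (0, 0) (by decide)
    rw [h4, h1 g hg (1, 0) (by decide)] at h3
    exact h3
  have h3 : ∀ g ∈ ds (ast cg) 1, (g (0, 1)).2 ≠ 0 := by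
    intro g hg h0
    have h4 := dD _ h0
    rw [← h2 g hg, ← h2 g hg] at h4
    have h5 : (1 : ZMod 3) = 0 := congrArg Prod.snd (g.injective h4)
    exact absurd h5 (by decide)
  have h4 : ∀ g ∈ ds (ast cg) 2, ∀ x : P3, x.2 ≠ 0 → decide ((g x).2 = 1) = decide (x.2 = 1) := by
    have h5 := swp (ds (ast cg) 1) (fun x : P3 => x.2 ≠ 0) (fun g hg x hx => by
      rw [h2 g hg]
      exact dA _ (h3 g hg) x hx) (fun x => decide (x.2 = 1)) (fun g hg => by
      obtain ⟨e, he⟩ := dB _ (h3 g hg)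
      refine ⟨e, fun x hx => ?_⟩
      rw [h2 g hg x]
      exact he x hx)
    exact h5
  have h5 : ∀ g ∈ ds (ast cg) 2, (g (0, 1)).2 = 1 := by
    intro g hg
    have h6 := h4 g hg (0, 1) (by decide)
    simpa using h6
  have h6 : ds (ds (ast cg) 2) 1 = ⊥ := by
    refine ds_comm fun a ha b hb => ?_
    have ha1 := ds_anti (ast cg) (show 1 ≤ 2 by norm_num) ha
    have hb1 := ds_anti (ast cg) (show 1 ≤ 2 by norm_num) hb
    ext x : 1
    show a (b x) = b (a x)
    rw [h2 a ha1 (b x), h2 b hb1 x, h2 b hb1 (a x), h2 a ha1 x]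
    exact dC _ _ (h5 a ha) (h5 b hb) x
  exact h6

/-- **DD-n9.** -/
theorem n9 : S_n9 := by
  have hcb : ds (ast cb) 3 = ⊥ := by
    have := ast_compl ca
    show ds (ast (fun x => !ca x)) 3 = ⊥
    rw [this]
    exact ds_ca
  have hce : ds (ast ce) 3 = ⊥ := by
    have := ast_compl cc
    show ds (ast (fun x => !cc x)) 3 = ⊥
    rw [this]
    exact ds_cc
  have t0 := tr_ca
  have t1 := tr_cb
  have t2 := tr_cc
  have t3 := tr_ce
  have t4 := tr_cg
  refine ⟨⟨![ca, cb, ce], fun i => ?_, fun i j => ?_⟩, ⟨![ca, cb, ce, cc, cg], fun i => ?_, fun i j => ?_⟩⟩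
  · have h3 : ∀ c : P3 → Bool, (∀ v : P3, v + v = 0) → ∃ a b, a ≠ b ∧ c a = false ∧ c b = false := by
      intro c h
      exact absurd (h (1, 0)) (by decide)
    fin_cases i
    · exact ⟨spn_of ca sp_ca, ds_ca, h3 ca⟩
    · exact ⟨spn_of cb sp_cb, hcb, h3 cb⟩
    · exact ⟨spn_of ce sp_ce, hce, h3 ce⟩
  · fin_cases i <;> fin_cases j <;> intro h <;> first
      | rfl
      | (exfalso
         simp only [Matrix.cons_val_zero, Matrix.cons_val_one, Matrix.cons_val_two,
           Matrix.head_cons, Matrix.tail_cons, Fin.zero_eta, Fin.mk_one, Fin.reduceFinMk,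
           Matrix.cons_val] at h
         omega)
  · fin_cases i
    · exact ds_ca
    · exact hcb
    · exact hce
    · exact ds_cc
    · exact ds_cg
  · fin_cases i <;> fin_cases j <;> intro h <;> first
      | rfl
      | (exfalso
         simp only [Matrix.cons_val_zero, Matrix.cons_val_one, Matrix.cons_val_two,
           Matrix.head_cons, Matrix.tail_cons, Fin.zero_eta, Fin.mk_one, Fin.reduceFinMk,
           Matrix.cons_val] at h
         omega)

end Pool.Agent.Q123.DD
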